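import Mathlib
import Pool.Agent.TH387.EX.Core
import Pool.Agent.TH641.NW.End2
import Pool.Agent.TH864.SX.Eleven
import Pool.Agent.TH469.SX.Fifteen
import Pool.Agent.R332.TW.Rot
import Pool.Agent.R724.SH.Beatty

set_option autoImplicit false

/-!
# The equivalence of Q1 for 10, …, 15 points: the open cases are a Beatty sequence

Let `10 ≤ r ≤ 15` and `α = (√r + 3) / (r - 9)`, so `α = 3 + √10` for `r = 10`. For every `m ≥ 1` and a
general set `Y` of `r` points of the complex projective plane, `m Y` is `AH₂(d)` and the equivalence of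
Q1 holds in EVERY degree `d`, unless `m = ⌊j α⌋` for some `j ≥ 1`, and then in every degree but
`d = 3 m + j`. For `r = 11, 15` the only open cases are `m = ⌊3 j α⌋`, `d = 3 (m + j)` where the
fractional part of `3 j α` is less than `1 / 2`. In particular the open multiplicities have distances at
least `6, 9, 2, 3` for `r = 10, 11, 12, 15`.
-/

namespace Pool.Agent.Results.MP_8707bd_ag.EquivalenceBeatty

open MvPolynomial Pool.Agent.TH387.EX Filter

/-- For a general set `Y` of `r` points (one nonempty open set), `m Y` is `AH₂(d)` and the equivalence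
of Q1 holds for all degrees `d` in the set `S`. -/
def Settled (r m : ℕ) (S : Set ℕ) : Prop :=
  ∃ Φ : MvPolynomial (Fin r × Fin 2) ℂ, Φ ≠ 0 ∧ ∀ Y : Fin r → Fin 2 → ℂ,
    MvPolynomial.eval (fun ij : Fin r × Fin 2 => Y ij.1 ij.2) Φ ≠ 0 →
      ∀ d ∈ S, IsAH Y m d ∧ Equivalence Y m d

/-- `α = (√r + 3) / (r - 9) = 1 / (√r - 3)` -/
noncomputable def alpha (r : ℕ) : ℝ := (Real.sqrt r + 3) / ((r : ℝ) - 9)

theorem Settled.mono {r m : ℕ} {S S' : Set ℕ} (h : Settled r m S') (hS : S ⊆ S') :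
    Settled r m S := by
  obtain ⟨F, hF, hF'⟩ := h
  exact ⟨F, hF, fun Y hY d hd => hF' Y hY d (hS hd)⟩

theorem irr {r : ℕ} (hr : 10 ≤ r) (hr' : r ≤ 15) : Irrational (Real.sqrt r) := by
  rw [irrational_sqrt_natCast_iff]
  rintro ⟨q, hq⟩
  have hq1 : q ≤ 3 := by
    by_contra hcon
    have : 4 * 4 ≤ q * q := Nat.mul_le_mul (by omega) (by omega)
    omega
  have : q * q ≤ 3 * 3 := Nat.mul_le_mul hq1 hq1
  omega

theorem ne_mul {r : ℕ} (hr : 10 ≤ r) (hr' : r ≤ 15) {m d : ℕ} (hm : 1 ≤ m) :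
    (d : ℝ) ≠ Real.sqrt r * m := by
  intro h
  have h2 := (irr hr hr').mul_natCast (m := m) (by omega)
  rw [← h] at h2
  exact (Nat.not_irrational d) h2

theorem window {r : ℕ} (hr : 10 ≤ r) (hr' : r ≤ 15) {m : ℕ} (hm : 1 ≤ m) :
    Settled r m {d | (d : ℝ) ≤ Real.sqrt r * m ∨ Real.sqrt r * (m + 1) ≤ d + 3} := by
  obtain ⟨F, hF, hF'⟩ := TH641.NW.expDim_uni_win2 (L := ℂ) hr hm
  obtain ⟨Φ, hΦ, hΦ'⟩ := core hr (m := m)
    (S := {d : ℕ | (d : ℝ) ≤ Real.sqrt r * m ∨ Real.sqrt r * (m + 1) ≤ d + 3})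
    ⟨F, hF, fun P hP d hd => by
      refine hF' P hP d ?_
      have h1 := min_le_left (Real.sqrt r - 3) (2 / 3 + 9 / (4 * Real.sqrt r))
      have h2 := min_le_left (Real.sqrt r - 3) (2 / 3 + 1 / (4 * Real.sqrt r))
      rcases hd with hd | hd
      · left
        have h3 := lt_of_le_of_ne hd (ne_mul hr hr' hm)
        linarith
      · right
        have h3 : Real.sqrt r * (m + 1) ≠ d + 3 := by
          have := ne_mul hr hr' (m := m + 1) (d := d + 3) (by omega)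
          push_cast at this
          exact fun h => this h.symm
        have h4 := lt_of_le_of_ne hd h3
        linarith⟩
  refine ⟨Φ, hΦ, fun Y hY d hd => ?_⟩
  exact (hΦ' Y hY).1 d hd

theorem window3 {r : ℕ} (hr : r = 11 ∨ r = 15) (m : ℕ) :
    Settled r m {d | ¬ 3 ∣ d ∨ (d : ℝ) < Real.sqrt r * m ∨
      Real.sqrt r * (2 * m + 1) ≤ 2 * d + 3} := by
  have hr10 : 10 ≤ r := by omega
  have h : ∃ F : MvPolynomial (Fin r × Fin 2) ℚ, F ≠ 0 ∧ ∀ P : Fin r → Fin 2 → ℂ,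
      MvPolynomial.aeval (fun ij : Fin r × Fin 2 => P ij.1 ij.2) F ≠ 0 →
      ∀ d ∈ {d : ℕ | ¬ 3 ∣ d ∨ (d : ℝ) < Real.sqrt r * m ∨
        Real.sqrt r * (2 * m + 1) ≤ 2 * d + 3}, Pool.Agent.H932R3.ExpDim ℂ (fun _ => m) P d := by
    rcases hr with rfl | rfl
    · obtain ⟨F, hF, hF'⟩ := TH864.SX.uniform11 m
      refine ⟨F, hF, fun P hP d hd => hF' P hP d ?_⟩
      have hd' : ¬ 3 ∣ d ∨ (d : ℝ) < Real.sqrt (11 : ℕ) * m ∨
        Real.sqrt (11 : ℕ) * (2 * m + 1) ≤ 2 * d + 3 := hd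
      push_cast at hd'
      exact hd'
    · obtain ⟨F, hF, hF'⟩ := TH469.SX.fifteen m
      refine ⟨F, hF, fun P hP d hd => hF' P hP d ?_⟩
      have hd' : ¬ 3 ∣ d ∨ (d : ℝ) < Real.sqrt (15 : ℕ) * m ∨
        Real.sqrt (15 : ℕ) * (2 * m + 1) ≤ 2 * d + 3 := hd
      push_cast at hd'
      exact hd'
  obtain ⟨Φ, hΦ, hΦ'⟩ := core hr10 h
  exact ⟨Φ, hΦ, fun Y hY d hd => (hΦ' Y hY).1 d hd⟩

/-- all six numbers of points -/
theorem general {r : ℕ} (hr : 10 ≤ r) (hr' : r ≤ 15) {m : ℕ} (hm : 1 ≤ m) :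
    Settled r m {d | ∀ j : ℕ, 1 ≤ j → m = ⌊(j : ℝ) * alpha r⌋₊ → d ≠ 3 * m + j} := by
  refine (window hr hr' hm).mono fun d hd => ?_
  by_contra hcon
  rw [Set.mem_ofPred_eq] at hcon
  push Not at hcon
  obtain ⟨j, hj, hj1, hj2⟩ := R724.SH.beatty hr hcon.1 hcon.2
  exact hd j hj hj1 hj2

/-- eleven and fifteen points -/
theorem three {r : ℕ} (hr : r = 11 ∨ r = 15) {m : ℕ} (hm : 1 ≤ m) :
    Settled r m {d | ∀ j : ℕ, 1 ≤ j → m = ⌊3 * (j : ℝ) * alpha r⌋₊ →
      Int.fract (3 * (j : ℝ) * alpha r) < 1 / 2 → d ≠ 3 * (m + j)} := by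
  refine (window3 hr m).mono fun d hd => ?_
  by_contra hcon
  rw [Set.mem_ofPred_eq] at hcon
  push Not at hcon
  have h1 : Real.sqrt r * m < d := lt_of_le_of_ne hcon.2.1 (ne_mul (by omega) (by omega) hm).symm
  obtain ⟨j, hj, hj1, hj2, hj3⟩ := R724.SH.beatty3 (by omega) hcon.1 h1 hcon.2.2
  exact hd j hj hj1 hj2 hj3

/-- a multiplicity which is not settled in every degree -/
theorem bad {r : ℕ} (hr : 10 ≤ r) (hr' : r ≤ 15) {m : ℕ} (hm : 1 ≤ m)
    (h : ¬ Settled r m Set.univ) : ∃ j : ℕ, 1 ≤ j ∧ m = ⌊(j : ℝ) * alpha r⌋₊ := by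
  by_contra hcon
  push Not at hcon
  exact h ((general hr hr' hm).mono fun d _ j hj hj1 => absurd hj1 (hcon j hj))

theorem bad3 {r : ℕ} (hr : r = 11 ∨ r = 15) {m : ℕ} (hm : 1 ≤ m) (h : ¬ Settled r m Set.univ) :
    ∃ j : ℕ, 1 ≤ j ∧ m = ⌊(j : ℝ) * (3 * alpha r)⌋₊ := by
  by_contra hcon
  push Not at hcon
  refine h ((three hr hm).mono fun d _ j hj hj1 => ?_)
  apply absurd hj1
  have h1 := hcon j hj
  rwa [show (j : ℝ) * (3 * alpha r) = 3 * (j : ℝ) * alpha r by ring] at h1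

theorem distance {r : ℕ} {x : ℝ} {g : ℕ} (hx : (g : ℝ) ≤ x)
    (h : ∀ m : ℕ, 1 ≤ m → ¬ Settled r m Set.univ → ∃ j : ℕ, 1 ≤ j ∧ m = ⌊(j : ℝ) * x⌋₊) {m m' : ℕ}
    (hm : 1 ≤ m) (hmm : m < m') (h1 : ¬ Settled r m Set.univ) (h2 : ¬ Settled r m' Set.univ) :
    m + g ≤ m' := by
  obtain ⟨j, -, hj⟩ := h m hm h1
  obtain ⟨j', -, hj'⟩ := h m' (by omega) h2
  have h3 := R724.SH.gap (x := x) ((Nat.cast_nonneg g).trans hx) (j := j) (j' := j')
    (by rw [← hj, ← hj']; exact hmm)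
  rw [← hj, ← hj'] at h3
  have h4 : g ≤ ⌊x⌋₊ := Nat.le_floor hx
  omega

open Classical in
theorem few {r : ℕ} {x : ℝ} (hx : 0 < x)
    (h : ∀ m : ℕ, 1 ≤ m → ¬ Settled r m Set.univ → ∃ j : ℕ, 1 ≤ j ∧ m = ⌊(j : ℝ) * x⌋₊) (M : ℕ) :
    (((Finset.Icc 1 M).filter fun m => ¬ Settled r m Set.univ).card : ℝ) * x ≤ M + 1 := by
  apply R724.SH.count hx
  · intro m hm
    exact (Finset.mem_Icc.1 (Finset.mem_filter.1 hm).1).2
  · intro m hm
    exact h m (Finset.mem_Icc.1 (Finset.mem_filter.1 hm).1).1 (Finset.mem_filter.1 hm).2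

/-- shift from `1, …, M` to `0, …, M - 1` -/
theorem count_shift (p q : ℕ → Prop) [DecidablePred p] [DecidablePred q] (M : ℕ)
    (h : ∀ m : ℕ, p (m + 1) → q m) :
    ((Finset.Icc 1 M).filter p).card ≤ ((Finset.range M).filter q).card := by
  have e : (Finset.Icc 1 M).filter p ⊆ ((Finset.range M).filter q).image (· + 1) := by
    intro m hm
    rw [Finset.mem_filter, Finset.mem_Icc] at hm
    rw [Finset.mem_image]
    refine ⟨m - 1, ?_, by omega⟩
    rw [Finset.mem_filter, Finset.mem_range]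
    refine ⟨by omega, h _ ?_⟩
    have : m - 1 + 1 = m := by omega
    rw [this]
    exact hm.2
  exact (Finset.card_le_card e).trans Finset.card_image_le

open Classical in
theorem density {r : ℕ} (hr : r = 11 ∨ r = 15) {c : ℝ} (hc : (Real.sqrt r - 3) / 6 < c) :
    ∀ᶠ M : ℕ in atTop,
      (((Finset.Icc 1 M).filter fun m => ¬ Settled r m Set.univ).card : ℝ) < c * M := by
  have hs3 := R724.SH.sqrt_gt (r := r) (by omega)
  have hirr3 : Irrational (Real.sqrt r / 3) := by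
    have := (irr (r := r) (by omega) (by omega)).div_natCast (m := 3) (by norm_num)
    simpa using this
  have h1 := R332.TW.rotation_freq hirr3 (Real.sqrt r / 2 - 1 / 2)
    (c₀ := (Real.sqrt r - 3) / 6) (by linarith) hc
  filter_upwards [h1] with M hM
  refine lt_of_le_of_lt ?_ hM
  have h2 := count_shift (fun m => ¬ Settled r m Set.univ) (fun m : ℕ => ∃ z : ℤ,
    0 ≤ Real.sqrt r / 3 * m + (Real.sqrt r / 2 - 1 / 2) - z ∧
    Real.sqrt r / 3 * m + (Real.sqrt r / 2 - 1 / 2) - z ≤ (Real.sqrt r - 3) / 6) M (by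
      intro m hm
      by_contra hcon
      push Not at hcon
      refine hm ((window3 hr (m + 1)).mono fun d _ => ?_)
      by_contra hd
      rw [Set.mem_ofPred_eq] at hd
      push Not at hd
      obtain ⟨⟨e, he⟩, h3, h4⟩ := hd
      rw [he] at h3 h4
      push_cast at h3 h4
      have h5 := hcon e (by push_cast; linarith)
      push_cast at h5
      linarith)
  exact_mod_cast h2

open Classical in
/-- **The equivalence of Q1 for 10, …, 15 points: the open cases.** -/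
theorem result :
    (∀ r m : ℕ, 10 ≤ r → r ≤ 15 → 1 ≤ m →
      Settled r m {d | ∀ j : ℕ, 1 ≤ j → m = ⌊(j : ℝ) * alpha r⌋₊ → d ≠ 3 * m + j}) ∧
    (∀ r m : ℕ, r = 11 ∨ r = 15 → 1 ≤ m →
      Settled r m {d | ∀ j : ℕ, 1 ≤ j → m = ⌊3 * (j : ℝ) * alpha r⌋₊ →
        Int.fract (3 * (j : ℝ) * alpha r) < 1 / 2 → d ≠ 3 * (m + j)}) ∧
    (∀ r g : ℕ, (r, g) ∈ ({(10, 6), (11, 9), (12, 2), (15, 3)} : Set (ℕ × ℕ)) → ∀ m m' : ℕ,
      1 ≤ m → m < m' → ¬ Settled r m Set.univ → ¬ Settled r m' Set.univ → m + g ≤ m') ∧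
    (∀ r M : ℕ, 10 ≤ r → r ≤ 15 →
      (((Finset.Icc 1 M).filter fun m => ¬ Settled r m Set.univ).card : ℝ) ≤
        (Real.sqrt r - 3) * (M + 1)) ∧
    (∀ r : ℕ, r = 11 ∨ r = 15 → ∀ c : ℝ, (Real.sqrt r - 3) / 6 < c → ∀ᶠ M : ℕ in atTop,
      (((Finset.Icc 1 M).filter fun m => ¬ Settled r m Set.univ).card : ℝ) < c * M) := by
  refine ⟨fun r m hr hr' hm => general hr hr' hm, fun r m hr hm => three hr hm,
    fun r g hrg m m' hm hmm h1 h2 => ?_, fun r M hr hr' => ?_, fun r hr c hc => density hr hc⟩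
  · simp only [Set.mem_insert_iff, Set.mem_singleton_iff, Prod.mk.injEq] at hrg
    rcases hrg with ⟨rfl, rfl⟩ | ⟨rfl, rfl⟩ | ⟨rfl, rfl⟩ | ⟨rfl, rfl⟩
    · refine distance (x := alpha 10) ?_
        (fun m hm h => bad (by norm_num) (by norm_num) hm h) hm hmm h1 h2
      have := R724.SH.sqrt_gt (r := 10) (by norm_num)
      unfold alpha
      push_cast at this ⊢
      rw [le_div_iff₀ (by norm_num)]
      linarith
    · refine distance (x := 3 * alpha 11) ?_ (fun m hm h => bad3 (by norm_num) hm h) hm hmm h1 h2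
      have := R724.SH.sqrt_gt (r := 11) (by norm_num)
      unfold alpha
      push_cast at this ⊢
      rw [← mul_div_assoc, le_div_iff₀ (by norm_num)]
      linarith
    · refine distance (x := alpha 12) ?_
        (fun m hm h => bad (by norm_num) (by norm_num) hm h) hm hmm h1 h2
      have := R724.SH.sqrt_gt (r := 12) (by norm_num)
      unfold alpha
      push_cast at this ⊢
      rw [le_div_iff₀ (by norm_num)]
      linarith
    · refine distance (x := 3 * alpha 15) ?_ (fun m hm h => bad3 (by norm_num) hm h) hm hmm h1 h2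
      have := R724.SH.sqrt_gt (r := 15) (by norm_num)
      unfold alpha
      push_cast at this ⊢
      rw [← mul_div_assoc, le_div_iff₀ (by norm_num)]
      linarith
  · have h1 := few (x := alpha r) (R724.SH.alpha_pos hr) (fun m hm h => bad hr hr' hm h) M
    have h2 : alpha r * (Real.sqrt r - 3) = 1 := R724.SH.alpha_mul hr
    have h3 := R724.SH.sqrt_gt hr
    have h4 := mul_le_mul_of_nonneg_right h1 (show 0 ≤ Real.sqrt r - 3 by linarith)
    rw [mul_assoc, h2, mul_one] at h4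
    rw [mul_comm]
    exact h4

end Pool.Agent.Results.MP_8707bd_ag.EquivalenceBeatty
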